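import Pool.Agent.helper65.CR.NonPE
import Pool.Agent.helper45.CR.WebsterM

/-!
# A closed embedded strictly pseudoconvex CR three-manifold with `c₁ = 0` and no pseudo-Einstein
contact form

Negative answer to Q1 (`n = 1`): there is a closed three-dimensional CR submanifold `M` of `ℂ⁴` (with
the induced CR structure `T^{1,0} M = T^{1,0} ℂ⁴ ∩ ℂ TM`), strictly pseudoconvex, with
`c₁(T^{1,0}) = 0` in `H²(M; ℝ)`, such that no contact form of `M` is pseudo-Einstein.
-/

namespace Pool.Agent.Results.MP_6ed372_gt.LeeConjectureFails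

open Pool.Agent.helper65.CR

theorem tangentFacts : TangentFacts where
  tangent _ hq v := isTangent_iff hq v
  hol _ hq v := isHolTangent_iff hq v
  inj _ hq _ _ _ _ h := dΦ_tv_injective hq h

theorem result : ∃ M : Set (Fin 4 → ℂ), IsClosedCR3 M ∧ StrictlyPseudoconvex M ∧
    ChernClassZero M ∧ ∀ θ, IsContactForm M θ → ¬ IsPseudoEinstein M θ :=
  ⟨M, isClosedCR3_M, strictlyPseudoconvex_M, chernClassZero_M,
    fun _ hθ => not_pseudoEinstein tangentFacts hθ⟩

end Pool.Agent.Results.MP_6ed372_gt.LeeConjectureFails
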